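import Pool.Agent.Results.MP_03d093_al.SphereBall

set_option autoImplicit false

/-!
# Depth versus word length in the Grigorchuk group

The first Grigorchuk group `G = ⟨a, b, c, d⟩`, a group of permutations of the set of finite binary words,
and the word length `len` are those of `Pool/Agent/Results/MP_03d093_al/SphereBall.lean`.
-/

namespace Pool.Agent.Results.MP_40d7e0_al.DepthConstant

open Pool.Agent.Results.MP_03d093_al.SphereBall

/-- `s` is the section of `g` at the vertex `u`. -/
def IsSection (g : Equiv.Perm (List Bool)) (u : List Bool) (s : Equiv.Perm (List Bool)) : Prop :=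
  ∀ w : List Bool, g (u ++ w) = g u ++ s w

/-- The set `{1, a, b, c, d}`. -/
def Nuc : Set (Equiv.Perm (List Bool)) := {1, a, b, c, d}

/-- The depth of `g`: the least `n` such that the sections of `g` at all words of length `n` are in
`{1, a, b, c, d}`. -/
noncomputable def depth (g : G) : ℕ :=
  sInf {n : ℕ | ∀ u : List Bool, u.length = n → ∃ s ∈ Nuc, IsSection g u s}

/-! ### Sections of words -/

/-- first letter after the action of a letter -/
def fl : Lt → Bool → Bool
  | .A, x => !x
  | _, x => x

/-- section of a letter -/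
def sl : Lt → Bool → List Lt
  | .A, _ => []
  | .B, false => [.A]
  | .B, true => [.C]
  | .C, false => [.A]
  | .C, true => [.D]
  | .D, false => []
  | .D, true => [.B]

theorem gen_cons (s : Lt) (x : Bool) (w : List Bool) :
    gen s (x :: w) = fl s x :: ev (sl s x) w := by
  cases s <;> cases x <;>
    simp [gen, fl, sl, a_apply, b_apply, c_apply, d_apply, aFun, bFun, cFun, dFun]

/-- is the letter `a`? -/
def isA : Lt → Bool
  | .A => true
  | _ => false

/-- the number of the letters `b, c, d` -/
def na (w : List Lt) : ℕ := (w.filter fun s => !isA s).length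

theorem sl_length (s : Lt) (x : Bool) : (sl s x).length ≤ na [s] := by
  cases s <;> cases x <;> simp [sl, na, isA]

theorem ev_section (w : List Lt) (x : Bool) :
    ∃ (y : Bool) (v : List Lt), v.length ≤ na w ∧ ∀ u, ev w (x :: u) = y :: ev v u := by
  induction w with
  | nil => exact ⟨x, [], by simp, fun u => rfl⟩
  | cons s w ih =>
    obtain ⟨y, v, hv, h⟩ := ih
    refine ⟨fl s y, sl s y ++ v, ?_, ?_⟩
    · have h1 : na (s :: w) = na [s] + na w := by
        cases s <;> simp [na, isA] <;> omega
      have h2 := sl_length s y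
      rw [List.length_append]
      omega
    · intro u
      rw [ev_cons, Equiv.Perm.mul_apply, h, gen_cons, ev_append]
      rfl

theorem bcd_pair (s t : Lt) (hs : s ≠ .A) (ht : t ≠ .A) : ∃ v : List Lt, v.length ≤ 1 ∧ ev v = gen s * gen t := by
  have key : ∀ w : List Bool,
      bFun (cFun w) = dFun w ∧ cFun (bFun w) = dFun w ∧ cFun (dFun w) = bFun w ∧
      dFun (cFun w) = bFun w ∧ bFun (dFun w) = cFun w ∧ dFun (bFun w) = cFun w := by
    intro w
    induction w with
    | nil => simp [bFun, cFun, dFun]
    | cons x w ih =>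
      obtain ⟨h1, h2, h3, h4, h5, h6⟩ := ih
      cases x
      · simp [bFun, cFun, dFun, aFun_invol w]
      · simp [bFun, cFun, dFun, h1, h2, h3, h4, h5, h6]
  cases s <;> cases t
  · exact absurd rfl hs
  · exact absurd rfl hs
  · exact absurd rfl hs
  · exact absurd rfl hs
  · exact absurd rfl ht
  · exact ⟨[], by simp, (gen_sq .B).symm⟩
  · exact ⟨[.D], by simp, by ext1 w; exact (key w).1.symm⟩
  · exact ⟨[.C], by simp, by ext1 w; exact (key w).2.2.2.2.1.symm⟩
  · exact absurd rfl ht
  · exact ⟨[.D], by simp, by ext1 w; exact (key w).2.1.symm⟩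
  · exact ⟨[], by simp, (gen_sq .C).symm⟩
  · exact ⟨[.B], by simp, by ext1 w; exact (key w).2.2.1.symm⟩
  · exact absurd rfl ht
  · exact ⟨[.C], by simp, by ext1 w; exact (key w).2.2.2.2.2.symm⟩
  · exact ⟨[.B], by simp, by ext1 w; exact (key w).2.2.2.1.symm⟩
  · exact ⟨[], by simp, (gen_sq .D).symm⟩

theorem chain_na (w : List Lt) (h : w.IsChain fun s t => s = .A ∨ t = .A) :
    2 * na w ≤ w.length + 1 ∧ (w.head? = some .A → 2 * na w ≤ w.length) := by
  induction w with
  | nil => simp [na, isA]
  | cons s w ih =>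
    rw [List.isChain_cons] at h
    obtain ⟨i1, i2⟩ := ih h.2
    cases w with
    | nil => cases s <;> simp [na, isA]
    | cons t w =>
      have h1 := h.1 t rfl
      have e : na (s :: t :: w) = na [s] + na (t :: w) := by
        cases s <;> simp [na, isA] <;> omega
      rw [e, List.length_cons]
      by_cases hs : s = .A
      · subst hs
        have e2 : na [Lt.A] = 0 := by simp [na, isA]
        rw [e2]
        constructor
        · omega
        · intro _
          omega
      · have ht : t = .A := h1.resolve_left hs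
        have h3 := i2 (by rw [ht]; rfl)
        have e2 : na [s] ≤ 1 := by cases s <;> simp [na, isA]
        constructor
        · omega
        · intro h4
          simp only [List.head?_cons, Option.some.injEq] at h4
          exact absurd h4 hs

theorem geod_na (g : G) : ∃ w : List Lt, evG w = g ∧ 2 * na w ≤ len g + 1 := by
  obtain ⟨w, hw, hg⟩ := exists_geod g
  refine ⟨w, hg, ?_⟩
  rw [← hw]
  refine (chain_na w ?_).1
  rw [List.isChain_iff_forall_rel_of_append_cons_cons]
  intro s t u v huv
  by_contra hcon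
  push Not at hcon
  obtain ⟨p, hp, hev⟩ := bcd_pair s t hcon.1 hcon.2
  have h1 : evG (u ++ p ++ v) = g := by
    rw [← hg, huv]
    apply Subtype.ext
    change ev (u ++ p ++ v) = ev (u ++ s :: t :: v)
    rw [ev_append, ev_append, hev, ev_append, ev_cons, ev_cons]
    simp only [mul_assoc]
  have h2 := len_le (u ++ p ++ v)
  rw [h1, ← hw, huv] at h2
  simp only [List.length_append, List.length_cons] at h2
  omega

/-- Sections at the first level. -/
theorem section_one (g : G) (x : Bool) :
    ∃ (y : Bool) (h : G), 2 * len h ≤ len g + 1 ∧ ∀ u, (g : Equiv.Perm (List Bool)) (x :: u) = y :: (h : Equiv.Perm (List Bool)) u := by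
  obtain ⟨w, hw, hn⟩ := geod_na g
  obtain ⟨y, v, hv, h⟩ := ev_section w x
  refine ⟨y, evG v, ?_, ?_⟩
  · have := len_le v
    omega
  · intro u
    rw [← hw]
    exact h u

theorem nuc_of_len {g : G} (h : len g ≤ 1) : (g : Equiv.Perm (List Bool)) ∈ Nuc := by
  obtain ⟨w, hw, hg⟩ := exists_geod g
  have h1 : (g : Equiv.Perm (List Bool)) = ev w := by rw [← hg]; rfl
  rw [h1]
  match w, hw with
  | [], _ => simp [Nuc]
  | [s], _ => cases s <;> simp [Nuc, gen]
  | s :: t :: w, hw => simp at hw; omega

theorem depth_set (n : ℕ) : ∀ g : G, len g ≤ 2 ^ n → ∀ u : List Bool, u.length = n →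
    ∃ s ∈ Nuc, IsSection g u s := by
  induction n with
  | zero =>
    intro g hg u hu
    have hu' : u = [] := List.length_eq_zero_iff.1 hu
    subst hu'
    refine ⟨g, nuc_of_len (by simpa using hg), fun w => ?_⟩
    obtain ⟨v, hv⟩ := exists_word g.2
    rw [← hv, ev_nil_apply]
    rfl
  | succ n ih =>
    intro g hg u hu
    match u, hu with
    | x :: u, hu =>
      obtain ⟨y, h, hh, hs⟩ := section_one g x
      rw [pow_succ] at hg
      obtain ⟨s, hs1, hs2⟩ := ih h (by omega) u (by simpa using hu)
      refine ⟨s, hs1, fun w => ?_⟩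
      rw [List.cons_append, hs, hs, hs2, List.cons_append]

theorem depth_le_of_len {g : G} {n : ℕ} (h : len g ≤ 2 ^ n) : depth g ≤ n :=
  Nat.sInf_le (depth_set n g h)

theorem isSection_unique {g s t : Equiv.Perm (List Bool)} {u : List Bool} (h : IsSection g u s)
    (h' : IsSection g u t) : s = t := by
  ext1 w
  have h1 := (h w).symm.trans (h' w)
  exact List.append_cancel_left h1

theorem isSection_append {g s t : Equiv.Perm (List Bool)} {u v : List Bool} (h : IsSection g u s)
    (h' : IsSection s v t) : IsSection g (u ++ v) t := by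
  intro w
  rw [List.append_assoc, h, h', h, List.append_assoc]

/-- The sections of the elements of the nucleus at `1 ⋯ 1` are in the nucleus. -/
theorem nuc_section {s : Equiv.Perm (List Bool)} (hs : s ∈ Nuc) (k : ℕ) :
    ∃ t ∈ Nuc, IsSection s (List.replicate k true) t := by
  induction k with
  | zero =>
    refine ⟨s, hs, fun w => ?_⟩
    have h1 : s [] = [] := by
      simp only [Nuc, Set.mem_insert_iff, Set.mem_singleton_iff] at hs
      rcases hs with rfl | rfl | rfl | rfl | rfl <;> rfl
    simp [h1]
  | succ k ih =>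
    obtain ⟨t, ht, h⟩ := ih
    have h2 : ∃ r ∈ Nuc, IsSection t [true] r := by
      simp only [Nuc, Set.mem_insert_iff, Set.mem_singleton_iff] at ht
      rcases ht with rfl | rfl | rfl | rfl | rfl
      · exact ⟨1, by simp [Nuc], fun w => rfl⟩
      · exact ⟨1, by simp [Nuc], fun w => by simp [a_apply, aFun]⟩
      · exact ⟨c, by simp [Nuc], fun w => by simp [b_apply, c_apply, bFun, cFun]⟩
      · exact ⟨d, by simp [Nuc], fun w => by simp [c_apply, d_apply, cFun, dFun]⟩
      · exact ⟨b, by simp [Nuc], fun w => by simp [b_apply, d_apply, bFun, dFun]⟩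
    obtain ⟨r, hr, hr2⟩ := h2
    refine ⟨r, hr, ?_⟩
    rw [List.replicate_succ']
    exact isSection_append h hr2

theorem sec_iter (w : List Lt) (n : ℕ) :
    IsSection (ev (sig^[n] w)) (List.replicate n true) (ev w) := by
  induction n with
  | zero =>
    intro v
    simp [ev_nil_apply]
  | succ n ih =>
    rw [Function.iterate_succ_apply', List.replicate_succ]
    intro v
    have h1 := sec_sig (sig^[n] w)
    rw [List.cons_append, (h1 _).2, (h1 _).2, ih, List.cons_append]

theorem ad_not_nuc : ev [.A, .D] ∉ Nuc := by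
  intro h
  have e : ev [.A, .D] = a * d := by simp [gen]
  rw [e] at h
  simp only [Nuc, Set.mem_insert_iff, Set.mem_singleton_iff] at h
  have h1 : (a * d) [false] = [true] := by decide
  have h2 : (a * d) [true, false, false] = [false, false, true] := by
    decide
  rcases h with h | h | h | h | h
  · rw [h] at h1; revert h1; decide
  · rw [h] at h2; revert h2; decide
  · rw [h] at h1; revert h1; decide
  · rw [h] at h1; revert h1; decide
  · rw [h] at h1; revert h1; decide

theorem sig_counts (n : ℕ) : ((sig^[n] [.A, .D]).filter isA).length = 2 ^ n ∧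
    (sig^[n] [.A, .D]).length = 2 ^ (n + 1) := by
  have key : ∀ w : List Lt,
      ((sig w).filter isA).length = 2 * (w.filter isA).length ∧
      (sig w).length = w.length + 2 * (w.filter isA).length := by
    intro w
    induction w with
    | nil => simp [sig]
    | cons s w ih =>
      obtain ⟨h1, h2⟩ := ih
      have e : sig (s :: w) = sg s ++ sig w := rfl
      rw [e, List.filter_append, List.length_append, List.length_append, h1, h2]
      cases s
      · have e1 : (sg .A).filter isA = [.A, .A] := rfl
        have e2 : (Lt.A :: w).filter isA = .A :: w.filter isA := rfl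
        have e3 : sg .A = [.A, .C, .A] := rfl
        rw [e1, e2, e3]; simp only [List.length_cons, List.length_nil]; omega
      · have e1 : (sg .B).filter isA = [] := rfl
        have e2 : (Lt.B :: w).filter isA = w.filter isA := rfl
        rw [e1, e2]; simp only [sg, List.length_cons, List.length_nil]; omega
      · have e1 : (sg .C).filter isA = [] := rfl
        have e2 : (Lt.C :: w).filter isA = w.filter isA := rfl
        rw [e1, e2]; simp only [sg, List.length_cons, List.length_nil]; omega
      · have e1 : (sg .D).filter isA = [] := rfl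
        have e2 : (Lt.D :: w).filter isA = w.filter isA := rfl
        rw [e1, e2]; simp only [sg, List.length_cons, List.length_nil]; omega
  induction n with
  | zero => exact ⟨rfl, rfl⟩
  | succ n ih =>
    rw [Function.iterate_succ_apply']
    obtain ⟨h1, h2⟩ := key (sig^[n] [.A, .D])
    rw [h1, h2, ih.1, ih.2]
    constructor <;> ring

theorem exists_elem (n : ℕ) : ∃ g : G, g ≠ 1 ∧ depth g = n + 1 ∧ 2 ^ n < len g ∧ len g ≤ 2 ^ (n + 1) := by
  set g : G := evG (sig^[n] [.A, .D]) with hg
  have hlen : len g ≤ 2 ^ (n + 1) := (len_le _).trans (sig_counts n).2.le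
  have hnot : ∀ m, m ≤ n → ¬ ∀ u : List Bool, u.length = m → ∃ s ∈ Nuc, IsSection g u s := by
    intro m hm h
    obtain ⟨s, hs, h1⟩ := h (List.replicate m true) (by simp)
    obtain ⟨t, ht, h2⟩ := nuc_section hs (n - m)
    have h3 := isSection_append h1 h2
    rw [List.replicate_append_replicate, Nat.add_sub_cancel' hm] at h3
    have h4 := isSection_unique h3 (sec_iter [.A, .D] n)
    rw [h4] at ht
    exact ad_not_nuc ht
  have hne : {m : ℕ | ∀ u : List Bool, u.length = m → ∃ s ∈ Nuc, IsSection g u s}.Nonempty :=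
    ⟨n + 1, depth_set (n + 1) g hlen⟩
  have hdep : n + 1 ≤ depth g := by
    by_contra hcon
    exact hnot (depth g) (by omega) (Nat.sInf_mem hne)
  refine ⟨g, ?_, le_antisymm (depth_le_of_len hlen) hdep, ?_, hlen⟩
  · intro h
    apply hnot 0 (Nat.zero_le n)
    intro u hu
    refine ⟨1, by simp [Nuc], fun w => ?_⟩
    rw [h]
    rfl
  · by_contra hcon
    push Not at hcon
    have := depth_le_of_len hcon
    omega

theorem len_pos {g : G} (hg : g ≠ 1) : 1 ≤ len g := by
  by_contra h
  obtain ⟨w, hw, hwg⟩ := exists_geod g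
  have h1 : w = [] := List.length_eq_zero_iff.1 (by omega)
  apply hg
  rw [← hwg, h1]
  rfl

theorem depth_le_clog (g : G) : depth g ≤ Nat.clog 2 (len g) :=
  depth_le_of_len (Nat.le_pow_clog (by norm_num) _)

theorem clog_le {m : ℕ} (hm : 1 ≤ m) : (Nat.clog 2 m : ℝ) ≤ Real.logb 2 m + 1 := by
  rcases Nat.lt_or_ge 1 m with h | h
  · have h1 := Nat.pow_pred_clog_lt_self (b := 2) (by norm_num) h
    have h2 : (Nat.clog 2 m : ℝ) - 1 ≤ Real.logb 2 m := by
      rw [Real.le_logb_iff_rpow_le (by norm_num) (by positivity)]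
      have h3 : 1 ≤ Nat.clog 2 m := Nat.clog_pos (by norm_num) h
      have h4 : ((Nat.clog 2 m : ℝ) - 1) = (((Nat.clog 2 m).pred : ℕ) : ℝ) := by
        rw [Nat.pred_eq_sub_one, Nat.cast_sub h3]
        simp
      rw [h4, Real.rpow_natCast]
      exact_mod_cast h1.le
    linarith
  · have : m = 1 := by omega
    subst this
    simp

theorem not_bound {lam : ℝ} (hl : lam < 1) (c : ℝ) :
    ∃ g : G, g ≠ 1 ∧ lam * Real.logb 2 (len g) + c < depth g := by
  obtain ⟨n, hn⟩ := exists_nat_gt (|c| / (1 - lam))
  obtain ⟨g, h1, h2, h3, h4⟩ := exists_elem n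
  refine ⟨g, h1, ?_⟩
  have hpos : (0 : ℝ) < len g := by
    have : 0 < len g := lt_of_le_of_lt (Nat.zero_le _) h3
    exact_mod_cast this
  have h5 : (n : ℝ) ≤ Real.logb 2 (len g) := by
    rw [Real.le_logb_iff_rpow_le (by norm_num) hpos, Real.rpow_natCast]
    exact_mod_cast h3.le
  have h6 : Real.logb 2 (len g) ≤ (n : ℝ) + 1 := by
    rw [Real.logb_le_iff_le_rpow (by norm_num) hpos]
    have : ((n : ℝ) + 1) = ((n + 1 : ℕ) : ℝ) := by push_cast; ring
    rw [this, Real.rpow_natCast]
    exact_mod_cast h4
  rw [div_lt_iff₀ (by linarith)] at hn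
  have h7 : c ≤ |c| := le_abs_self c
  rw [h2]
  push_cast
  have h8 : (1 - lam) * n ≤ (1 - lam) * Real.logb 2 (len g) :=
    mul_le_mul_of_nonneg_left h5 (by linarith)
  nlinarith

/-- **Theorem.**
* `d(g) ≤ ⌈log₂ |g|⌉` for all `g ≠ 1`;
* for every `n` there is `g ≠ 1` with `d(g) = n + 1 = ⌈log₂ |g|⌉`;
* hence (Q1) there are no constants `λ < 1` and `c` with `d(g) ≤ λ log₂ |g| + c` for all `g ≠ 1`;
* and (Q2) the set of the `λ` for which there is such a constant `c` is `[1, ∞)`, so that `λ^* = 1`. -/
theorem result :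
    (∀ g : G, g ≠ 1 → depth g ≤ Nat.clog 2 (len g)) ∧
    (∀ n : ℕ, ∃ g : G, g ≠ 1 ∧ depth g = n + 1 ∧ 2 ^ n < len g ∧ len g ≤ 2 ^ (n + 1)) ∧
    (¬ ∃ lam c : ℝ, lam < 1 ∧ ∀ g : G, g ≠ 1 → (depth g : ℝ) ≤ lam * Real.logb 2 (len g) + c) ∧
    {lam : ℝ | ∃ c : ℝ, ∀ g : G, g ≠ 1 → (depth g : ℝ) ≤ lam * Real.logb 2 (len g) + c} =
      Set.Ici 1 ∧
    sInf {lam : ℝ | ∃ c : ℝ, ∀ g : G, g ≠ 1 → (depth g : ℝ) ≤ lam * Real.logb 2 (len g) + c} = 1 := by
  have hset : {lam : ℝ | ∃ c : ℝ, ∀ g : G, g ≠ 1 → (depth g : ℝ) ≤ lam * Real.logb 2 (len g) + c} =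
      Set.Ici 1 := by
    ext lam
    rw [Set.mem_ofPred_eq, Set.mem_Ici]
    constructor
    · rintro ⟨c, hc⟩
      by_contra hl
      push Not at hl
      obtain ⟨g, h1, h2⟩ := not_bound hl c
      exact absurd (hc g h1) (not_le.2 h2)
    · intro hl
      refine ⟨1, fun g hg => ?_⟩
      have h1 : (depth g : ℝ) ≤ Nat.clog 2 (len g) := by exact_mod_cast depth_le_clog g
      have h2 := clog_le (len_pos hg)
      have h3 : 0 ≤ Real.logb 2 (len g) :=
        Real.logb_nonneg (by norm_num) (by exact_mod_cast len_pos hg)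
      nlinarith
  refine ⟨fun g _ => depth_le_clog g, exists_elem, ?_, hset, ?_⟩
  · rintro ⟨lam, c, hl, h⟩
    obtain ⟨g, h1, h2⟩ := not_bound hl c
    exact absurd (h g h1) (not_le.2 h2)
  · rw [hset, csInf_Ici]

end Pool.Agent.Results.MP_40d7e0_al.DepthConstant
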